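import Pool.Agent.X240.Rig.Asks

set_option autoImplicit false

/-! # Generic rigidity in space: the bounds -/

namespace Pool.Agent.X240.Rig

open Finset
open Pool.Agent.TH697.Form (IsProb)
open Pool.Agent.TH697.Row (ApproximatesOn)
open Pool.Agent.X240.Gen (Simple)

variable {n : ℕ}

theorem cards : (univ : Finset (Fin (3 * n - 6))).card = 3 * n - 6 ∧
    Fintype.card (Fin (n - 5)) = n - 5 := by
  simp

theorem sizes (hn : 2048 ≤ n) : (univ : Finset (Fin (3 * n - 6))).card ≤ n ^ 2 ∧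
    Fintype.card (Fin (n - 5)) ≤ n ∧ 4 * n ≤ 5 * Fintype.card (Fin (n - 5)) := by
  obtain ⟨c1, c2⟩ := cards (n := n)
  rw [c1, c2]
  refine ⟨?_, by omega, by omega⟩
  have : 2048 * n ≤ n ^ 2 := by nlinarith
  omega

theorem prod_ge (hn : 2048 ≤ n) : 29 / 10 * (n : ℝ) ^ 2 ≤
    ((univ : Finset (Fin (3 * n - 6))).card : ℝ) * (Fintype.card (Fin (n - 5)) : ℝ) := by
  obtain ⟨c1, c2⟩ := cards (n := n)
  rw [c1, c2]
  have hn' : (2048 : ℝ) ≤ n := by exact_mod_cast hn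
  have h1 : ((3 * n - 6 : ℕ) : ℝ) = 3 * n - 6 := by
    rw [Nat.cast_sub (by omega)]
    push_cast
    ring
  have h2 : ((n - 5 : ℕ) : ℝ) = n - 5 := by
    rw [Nat.cast_sub (by omega)]
    push_cast
    ring
  rw [h1, h2]
  nlinarith

theorem cube_ge (hn : 2048 ≤ n) : 86 / 10 * (n : ℝ) ^ 3 ≤
    ((univ : Finset (Fin (3 * n - 6))).card : ℝ) ^ 2 * (Fintype.card (Fin (n - 5)) : ℝ) := by
  have h := prod_ge hn
  obtain ⟨c1, c2⟩ := cards (n := n)
  rw [c1, c2] at h ⊢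
  have hn' : (2048 : ℝ) ≤ n := by exact_mod_cast hn
  have h1 : ((3 * n - 6 : ℕ) : ℝ) = 3 * n - 6 := by
    rw [Nat.cast_sub (by omega)]
    push_cast
    ring
  have h2 : ((n - 5 : ℕ) : ℝ) = n - 5 := by
    rw [Nat.cast_sub (by omega)]
    push_cast
    ring
  rw [h1, h2] at h ⊢
  have h3 : (0 : ℝ) ≤ 3 * n - 6 := by linarith
  have h4 := mul_le_mul_of_nonneg_left h h3
  have e : (3 * (n : ℝ) - 6) ^ 2 * (n - 5) = (3 * n - 6) * ((3 * n - 6) * (n - 5)) := by ring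
  rw [e]
  refine le_trans ?_ h4
  have h5 : (3 * (n : ℝ) - 6) * (29 / 10 * n ^ 2) = n ^ 2 * (87 / 10 * n - 174 / 10) := by ring
  have h6 : 86 / 10 * (n : ℝ) ^ 3 = n ^ 2 * (86 / 10 * n) := by ring
  rw [h5, h6]
  exact mul_le_mul_of_nonneg_left (by linarith) (by positivity)

/-- branching programs which test real formulas -/
theorem program_bound {c w : ℕ} (hn : 2048 ≤ n) (hw : 1 ≤ w) {Ω : Type} [Fintype Ω]
    (μ : Ω → ℝ) (hμ : IsProb μ) (s : ℕ)
    (B : Ω → Pool.Agent.Y638.RF.Program (Fin (3 * n - 6)) (fun _ => Fin n × Fin n) w (2 ^ c) s)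
    (hB : ApproximatesOn μ (fun ω => (B ω).eval) Simple rigid) :
    (n : ℝ) ^ 2 ≤ 700 * w * (c * w + Real.logb 2 n) * s := by
  obtain ⟨s1, s2, s3⟩ := sizes hn
  have h := Pool.Agent.X240.Gen.rf_program_log hw μ hμ s B hB (I := univ) (T := Fin (n - 5))
    (fun i _ => (asks (by omega) i).1) hn s1 s2 s3
  have h1 := prod_ge hn
  have h0 : (0 : ℝ) ≤ w * (c * w + Real.logb 2 n) * s := by
    have := Pool.Agent.X240.Gen.le_logb hn
    positivity
  have e1 : 1900 * (w : ℝ) * (c * w + Real.logb 2 n) * s =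
    1900 * (w * (c * w + Real.logb 2 n) * s) := by ring
  have e2 : 700 * (w : ℝ) * (c * w + Real.logb 2 n) * s =
    700 * (w * (c * w + Real.logb 2 n) * s) := by ring
  rw [e1] at h
  rw [e2]
  linarith

/-- networks -/
theorem net_bound {c w : ℕ} (hn : 2048 ≤ n) (hw : 1 ≤ w) {Ω : Type} [Fintype Ω]
    (μ : Ω → ℝ) (hμ : IsProb μ) (s : ℕ)
    (F : Ω → Pool.Agent.Y638.RF.Net (Fin (3 * n - 6)) (fun _ => Fin n × Fin n) w (2 ^ c))
    (hsz : ∀ ω, (F ω).size ≤ s)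
    (hF : ApproximatesOn μ (fun ω => (F ω).eval) Simple rigid ∨
      ApproximatesOn μ (fun ω x => !(F ω).eval x) Simple rigid) :
    (n : ℝ) ^ 2 ≤ 1400 * w * (√n + 61 * Real.logb 2 n + 2 * c * w) * s := by
  obtain ⟨s1, s2, s3⟩ := sizes hn
  have h := Pool.Agent.X240.Gen.rf_net_log hw μ hμ s F hsz hF (I := univ) (T := Fin (n - 5))
    (fun i _ => (asks (by omega) i).1) hn s1 s2 s3
  have h1 := prod_ge hn
  have h0 : (0 : ℝ) ≤ w * (√n + 61 * Real.logb 2 n + 2 * c * w) * s := by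
    have := Pool.Agent.X240.Gen.le_logb hn
    positivity
  have e1 : 4000 * (w : ℝ) * (√n + 61 * Real.logb 2 n + 2 * c * w) * s =
    4000 * (w * (√n + 61 * Real.logb 2 n + 2 * c * w) * s) := by ring
  have e2 : 1400 * (w : ℝ) * (√n + 61 * Real.logb 2 n + 2 * c * w) * s =
    1400 * (w * (√n + 61 * Real.logb 2 n + 2 * c * w) * s) := by ring
  rw [e1] at h
  rw [e2]
  linarith

/-- formulas with determinant gates -/
theorem det_bound {c w : ℕ} (hn : 2048 ≤ n) (hw : 1 ≤ w) {Ω : Type} [Fintype Ω]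
    (μ : Ω → ℝ) (hμ : IsProb μ) (s : ℕ)
    (F : Ω → Pool.Agent.Y649.DG.Fml (Fin (3 * n - 6)) (fun _ => Fin n × Fin n) w (2 ^ c))
    (hsz : ∀ ω, (F ω).size ≤ s)
    (hF : ApproximatesOn μ (fun ω => (F ω).accepts) Simple rigid) :
    (n : ℝ) ^ 3 ≤ 1400000 * w ^ 2 * (c * w + Real.logb 2 n) * s ^ 2 := by
  obtain ⟨s1, s2, s3⟩ := sizes hn
  have h := Pool.Agent.X240.Gen.dg_formula_log hw μ hμ s F hsz hF (I := univ) (T := Fin (n - 5))
    (fun i _ => (asks (by omega) i).1) hn s1 s2 s3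
  have h1 := cube_ge hn
  have h0 : (0 : ℝ) ≤ w ^ 2 * (c * w + Real.logb 2 n) * s ^ 2 := by
    have := Pool.Agent.X240.Gen.le_logb hn
    positivity
  have e1 : 12000000 * (w : ℝ) ^ 2 * (c * w + Real.logb 2 n) * s ^ 2 =
    12000000 * (w ^ 2 * (c * w + Real.logb 2 n) * s ^ 2) := by ring
  have e2 : 1400000 * (w : ℝ) ^ 2 * (c * w + Real.logb 2 n) * s ^ 2 =
    1400000 * (w ^ 2 * (c * w + Real.logb 2 n) * s ^ 2) := by ring
  rw [e1] at h
  rw [e2]
  linarith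

/-- branching programs which test integral formulas -/
theorem word_bound {c w v : ℕ} (hn : 2048 ≤ n) (hw : 1 ≤ w) {Ω : Type} [Fintype Ω]
    (μ : Ω → ℝ) (hμ : IsProb μ) (s : ℕ)
    (B : Ω → Pool.Agent.Y638.WF.Program (Fin (3 * n - 6)) (fun _ => Fin n × Fin n) w (2 ^ c)
      (2 ^ v) Simple s)
    (hB : ApproximatesOn μ (fun ω => (B ω).eval) Simple rigid) :
    (n : ℝ) ^ 2 ≤ 250 * w * (v + c * w + Real.logb 2 n) * s := by
  obtain ⟨s1, s2, s3⟩ := sizes hn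
  have h := Pool.Agent.X240.Gen.wf_program_log hw μ hμ s B hB (I := univ) (T := Fin (n - 5))
    (fun i _ => (asks (by omega) i).2) hn s1 s2 s3
  have h1 := prod_ge hn
  have h0 : (0 : ℝ) ≤ w * (v + c * w + Real.logb 2 n) * s := by
    have := Pool.Agent.X240.Gen.le_logb hn
    positivity
  have e1 : 700 * (w : ℝ) * (v + c * w + Real.logb 2 n) * s =
    700 * (w * (v + c * w + Real.logb 2 n) * s) := by ring
  have e2 : 250 * (w : ℝ) * (v + c * w + Real.logb 2 n) * s =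
    250 * (w * (v + c * w + Real.logb 2 n) * s) := by ring
  rw [e1] at h
  rw [e2]
  linarith

end Pool.Agent.X240.Rig
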