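import Pool.Agent.X240.Gen.Final
import Pool.Agent.X240.Gen.Graph
import Pool.Agent.TH349.Rig.Two

set_option autoImplicit false

/-! # Generic rigidity in space: every edge can ask -/

namespace Pool.Agent.X240.Rig

open Finset
open Pool.Agent.H283R2.DR (GenRigid IsMotion InfRigid)
open Pool.Agent.TH349.Rig
open Pool.Agent.X240.Gen (graph Simple graph_adj graph_comp simple_comp ncard_edges relabel
  simple_relabel iso)

open Classical in
/-- Is the graph with the edges `x i` generically rigid in space? -/
noncomputable def rigid {ι V : Type} (x : ι → V × V) : Bool := decide (GenRigid 3 (graph x))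

theorem genRigid_of_iso {V W : Type} {d : ℕ} {G : SimpleGraph V} {G' : SimpleGraph W}
    (φ : G ≃g G') (h : GenRigid d G) : GenRigid d G' := by
  obtain ⟨p, hp⟩ := h
  refine ⟨p ∘ φ.symm, fun q hq => ?_⟩
  obtain ⟨A, b, hA, h⟩ := hp (q ∘ φ) (fun u v huv => by
    have := hq (φ u) (φ v) (φ.map_adj_iff.2 huv)
    simpa using this)
  exact ⟨A, b, hA, fun v => by simpa using h (φ.symm v)⟩

theorem genRigid_iso {V W : Type} {d : ℕ} {G : SimpleGraph V} {G' : SimpleGraph W}
    (φ : G ≃g G') : GenRigid d G ↔ GenRigid d G' :=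
  ⟨genRigid_of_iso φ, genRigid_of_iso φ.symm⟩

variable {T : ℕ}

/-- the vertices which are not poles: two centres, the vertex `d`, the vertices `a t` -/
abbrev U (T : ℕ) : Type := Bool ⊕ Option (Fin T)

/-- the vertices: two poles and the others -/
abbrev W (T : ℕ) : Type := Bool ⊕ U T

/-- the names of the edges -/
abbrev J (T : ℕ) : Type := Option (Option (Option ((Bool × U T) ⊕ Fin T)))

/-- the edges -/
def lst (z : Fin T → Bool) (s : Fin T) : J T → W T × W T
  | none => (.inr (.inr (some s)), .inr (.inr none))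
  | some none => (.inl false, .inl true)
  | some (some none) => (.inr (.inl false), .inr (.inr none))
  | some (some (some (.inl q))) => (.inl q.1, .inr q.2)
  | some (some (some (.inr t))) => (.inr (.inl (z t)), .inr (.inr (some t)))

theorem card_J : Fintype.card (J T) = 3 * T + 9 := by
  simp
  ring

theorem card_W : Fintype.card (W T) = T + 5 := by
  simp
  ring

theorem lst_simple (z : Fin T → Bool) (s : Fin T) : Simple (lst z s) := by
  constructor
  · rintro (_ | _ | _ | ⟨b, u⟩ | t) <;> simp [lst]
  · rintro (_ | _ | _ | ⟨b, u⟩ | t) (_ | _ | _ | ⟨b', u'⟩ | t') h <;> simp [lst] at h ⊢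
    · exact h
    · exact h.2

/-- the two poles -/
def A (T : ℕ) : Finset (W T) := {.inl false, .inl true}

theorem mem_Ac {v : W T} (hv : v ∈ (A T)ᶜ) : ∃ u : U T, v = .inr u := by
  rcases v with b | u
  · exfalso
    rw [mem_compl] at hv
    apply hv
    unfold A
    cases b <;> simp
  · exact ⟨u, rfl⟩

theorem inr_mem (u : U T) : (.inr u : W T) ∈ (A T)ᶜ := by
  rw [mem_compl]
  unfold A
  simp

theorem adj_pole (z : Fin T → Bool) (s : Fin T) (b : Bool) (u : U T) :
    (graph (lst z s)).Adj (.inl b) (.inr u) := by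
  rw [graph_adj]
  exact ⟨⟨some (some (some (.inl (b, u)))), Or.inl rfl⟩, by simp⟩

theorem join (z : Fin T → Bool) (s : Fin T) : Jn (graph (lst z s)) (A T) (A T)ᶜ := by
  refine ⟨disjoint_compl_right, fun a ha b hb => ?_⟩
  obtain ⟨u, rfl⟩ := mem_Ac hb
  rcases a with b | u'
  · exact adj_pole z s b u
  · exact absurd ha (mem_compl.1 (inr_mem u'))

/-- the other vertices -/
abbrev H (z : Fin T → Bool) (s : Fin T) :
    SimpleGraph (((A T)ᶜ : Finset (W T)) : Set (W T)) :=
  (graph (lst z s)).induce (((A T)ᶜ : Finset (W T)) : Set (W T))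

/-- a vertex of the other side -/
def vx (u : U T) : (((A T)ᶜ : Finset (W T)) : Set (W T)) := ⟨.inr u, inr_mem u⟩

theorem adj_c (z : Fin T → Bool) (s t : Fin T) :
    (H z s).Adj (vx (.inl (z t))) (vx (.inr (some t))) := by
  rw [SimpleGraph.comap_adj, graph_adj]
  exact ⟨⟨some (some (some (.inr t))), Or.inl rfl⟩, by simp [vx]⟩

theorem adj_d (z : Fin T → Bool) (s : Fin T) :
    (H z s).Adj (vx (.inl false)) (vx (.inr none)) := by
  rw [SimpleGraph.comap_adj, graph_adj]
  exact ⟨⟨some (some none), Or.inl rfl⟩, by simp [vx]⟩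

theorem adj_q (z : Fin T → Bool) (s : Fin T) :
    (H z s).Adj (vx (.inr (some s))) (vx (.inr none)) := by
  rw [SimpleGraph.comap_adj, graph_adj]
  exact ⟨⟨none, Or.inl rfl⟩, by simp [vx]⟩

theorem connected (z : Fin T → Bool) (s : Fin T) (hz : z s = true) : (H z s).Connected := by
  have h0 : (H z s).Reachable (vx (.inr none)) (vx (.inl false)) := (adj_d z s).symm.reachable
  have h1 : (H z s).Reachable (vx (.inr none)) (vx (.inl true)) := by
    have h2 := adj_c z s s
    rw [hz] at h2
    exact (adj_q z s).symm.reachable.trans h2.symm.reachable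
  have h2 : ∀ b, (H z s).Reachable (vx (.inr none)) (vx (.inl b)) := by
    intro b
    cases b
    · exact h0
    · exact h1
  have h3 : ∀ v, (H z s).Reachable (vx (.inr none)) v := by
    rintro ⟨v, hv⟩
    obtain ⟨u, rfl⟩ := mem_Ac (by simpa using hv)
    rcases u with b | _ | t
    · exact h2 b
    · exact SimpleGraph.Reachable.refl _
    · exact (h2 (z t)).trans (adj_c z s t).reachable
  haveI : Nonempty (((A T)ᶜ : Finset (W T)) : Set (W T)) := ⟨vx (.inr none)⟩
  exact ⟨fun u v => (h3 u).symm.trans (h3 v)⟩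

/-- the part of a vertex -/
def part (z : Fin T → Bool) : W T → Bool
  | .inl _ => false
  | .inr (.inl b) => b
  | .inr (.inr none) => false
  | .inr (.inr (some t)) => z t

theorem part_eq (z : Fin T → Bool) (s : Fin T) (hz : z s = false)
    (u v : (((A T)ᶜ : Finset (W T)) : Set (W T))) (h : (H z s).Adj u v) :
    part z u = part z v := by
  rw [SimpleGraph.comap_adj, graph_adj] at h
  obtain ⟨⟨i, hi⟩, -⟩ := h
  obtain ⟨u, hu⟩ := u
  obtain ⟨v, hv⟩ := v
  obtain ⟨u, rfl⟩ := mem_Ac (by simpa using hu)
  obtain ⟨v, rfl⟩ := mem_Ac (by simpa using hv)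
  rcases i with _ | _ | _ | ⟨b, q⟩ | t
  · rcases hi with hi | hi <;>
    · simp only [lst, Prod.mk.injEq, Function.Embedding.subtype_apply, Sum.inr.injEq] at hi
      obtain ⟨h1, h2⟩ := hi
      simp [← h1, ← h2, part, hz]
  · rcases hi with hi | hi <;> simp [lst] at hi
  · rcases hi with hi | hi <;>
    · simp only [lst, Prod.mk.injEq, Function.Embedding.subtype_apply, Sum.inr.injEq] at hi
      obtain ⟨h1, h2⟩ := hi
      simp [← h1, ← h2, part]
  · rcases hi with hi | hi <;> simp [lst] at hi
  · rcases hi with hi | hi <;>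
    · simp only [lst, Prod.mk.injEq, Function.Embedding.subtype_apply, Sum.inr.injEq] at hi
      obtain ⟨h1, h2⟩ := hi
      simp [← h1, ← h2, part]

theorem not_connected (z : Fin T → Bool) (s : Fin T) (hz : z s = false) :
    ¬ (H z s).Connected := by
  intro h
  obtain ⟨w⟩ := h.preconnected (vx (.inl false)) (vx (.inl true))
  have key : ∀ u v, (H z s).Walk u v → part z u = part z v := by
    intro u v w
    induction w with
    | nil => rfl
    | cons h _ ih => exact (part_eq z s hz _ _ h).trans ih
  have := key _ _ w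
  simp [part, vx] at this

/-- the criterion, for any way to decide whether two vertices are equal -/
theorem rigid_two' {V : Type} [Fintype V] [inst : DecidableEq V] {p : V → Fin 3 → ℝ}
    (hp : Pool.Agent.H789R5.MG p) {G : SimpleGraph V} {A : Finset V}
    (hJ : Jn G A Aᶜ) (hA : A.card = 2) (hB : 2 ≤ (Aᶜ).card)
    (hcon : (G.induce ((Aᶜ : Finset V) : Set V)).Connected)
    (hE : 3 * Fintype.card V ≤ G.edgeSet.ncard + 6) : Pool.Agent.H789R5.mo G p ≤ 6 := by
  obtain rfl : inst = fun a b => Classical.propDecidable (a = b) := Subsingleton.elim _ _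
  exact rigid_two hp hJ hA hB hcon hE

theorem genRigid_lst (z : Fin T → Bool) (s : Fin T) :
    GenRigid 3 (graph (lst z s)) ↔ z s = true := by
  have hcW : Fintype.card (W T) = T + 5 := card_W
  have hA : (A T).card = 2 := by
    unfold A
    rw [card_pair]
    simp
  have hAc : (A T).card + ((A T)ᶜ).card = Fintype.card (W T) := card_add_card_compl _
  constructor
  · intro h
    have h3 := threeConnected_of_rigid (by rw [hcW]; omega) h
    by_contra hz
    rw [Bool.not_eq_true] at hz
    apply not_connected z s hz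
    have h4 := h3.2 (A T) hA.le
    have h5 : ((A T : Set (W T)))ᶜ = (((A T)ᶜ : Finset (W T)) : Set (W T)) := by
      rw [coe_compl]
    rw [h5] at h4
    exact h4
  · intro hz
    obtain ⟨p, hp⟩ := Pool.Agent.H789R5.exists_mg (W T) 3
    rw [Pool.Agent.H789R5.genRigid_iff hp (by rw [hcW]; omega)]
    have hB : 2 ≤ ((A T)ᶜ).card := by omega
    exact rigid_two' hp (join z s) hA hB (connected z s hz) (by
      rw [ncard_edges (lst_simple z s), Nat.card_eq_fintype_card, card_J, hcW]
      omega)

theorem asks {n : ℕ} (hn : 6 ≤ n) (i : Fin (3 * n - 6)) :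
    Pool.Agent.Y638.RF.Asks (D := fun _ : Fin (3 * n - 6) => Fin n × Fin n) (Fin (n - 5))
      (Fintype.card (Fin (n - 5))) 0 Simple rigid i ∧
    Pool.Agent.Y638.WF.Asks (D := fun _ : Fin (3 * n - 6) => Fin n × Fin n) (Fin (n - 5)) 0
      Simple rigid i := by
  classical
  have φ : W (n - 5) ≃ Fin n := Fintype.equivFinOfCardEq (by rw [card_W]; omega)
  have e : Fin (3 * n - 6) ≃ J (n - 5) :=
    (Fintype.equivFinOfCardEq (by rw [card_J]; omega)).symm
  have h0 : ∀ (z : Fin (n - 5) → Bool) t, Function.update (relabel φ (lst z ⟨0, by omega⟩)) none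
      (φ (.inr (.inr (some t))), φ (.inr (.inr none))) = relabel φ (lst z t) := by
    intro z t
    funext i
    rcases i with _ | i
    · rfl
    · rw [Function.update_of_ne (by simp)]
      rcases i with _ | _ | q | t <;> rfl
  refine Pool.Agent.X240.Gen.asks_eqv e none (fun x e h => simple_comp e h)
    (fun x e => by unfold rigid; rw [graph_comp x e]) (fun z => relabel φ (lst z ⟨0, by omega⟩))
    (fun t => (φ (.inr (.inr (some t))), φ (.inr (.inr none)))) (fun z t => ?_) (fun z t => ?_) i
  · rw [h0]
    exact simple_comp e (simple_relabel φ (lst_simple z t))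
  · rw [h0]
    unfold rigid
    rw [graph_comp (relabel φ (lst z t)) e]
    have h := (genRigid_iso (d := 3) (iso φ (lst z t))).symm.trans (genRigid_lst z t)
    cases hz : z t with
    | true => exact decide_eq_true (h.2 hz)
    | false =>
      refine decide_eq_false fun h1 => ?_
      have := h.1 h1
      rw [hz] at this
      exact Bool.false_ne_true this

end Pool.Agent.X240.Rig
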